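import Mathlib

/-!
# Balanced splittability of random minimum and uniform spanning trees of grids

For the grid `P₂ □ P₄` (8 vertices, 10 edges, 56 spanning trees, 44 of which are splittable into two halves)
`pUST = 11/14 < 248/315 = pMST`, which refutes Q2.

The random minimum spanning tree is given by a uniformly random ranking of the edges: the weights of the edges
are `0, …, m-1` in a uniformly random order.
-/

set_option autoImplicit false

namespace Pool.Agent.Results.MP_ddaf7c_pr.GridTwoFour

open SimpleGraph

/-- The spanning subgraph of `G` whose edges are the elements of `T`. -/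
def span {V : Type} (G : SimpleGraph V) (T : Set G.edgeSet) : SimpleGraph V :=
  fromEdgeSet (Subtype.val '' T)

/-- The spanning trees of `G`, as sets of edges. -/
def trees {V : Type} (G : SimpleGraph V) : Set (Set G.edgeSet) := {T | (span G T).IsTree}

/-- `T` is splittable into two equal halves: there is an edge `e` of `T` such that each component of `T - e`
has exactly half of the vertices. -/
def Splittable {V : Type} (G : SimpleGraph V) (T : Set G.edgeSet) : Prop :=
  ∃ e ∈ T, ∀ c : (span G (T \ {e})).ConnectedComponent, 2 * c.supp.ncard = Nat.card V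

/-- The probability that the uniform spanning tree is splittable into two equal halves. -/
noncomputable def pUST {V : Type} (G : SimpleGraph V) : ℚ :=
  ((trees G ∩ {T | Splittable G T}).ncard : ℚ) / ((trees G).ncard : ℚ)

/-- The rankings of the edges: bijections of the set of edges with `{0, …, m-1}`, `m` the number of edges.
The rank of an edge is its weight. -/
abbrev Ranking {V : Type} (G : SimpleGraph V) : Type := G.edgeSet ≃ Fin (Nat.card G.edgeSet)

/-- The total weight of a set of edges. -/
noncomputable def weight {V : Type} (G : SimpleGraph V) (w : Ranking G) (T : Set G.edgeSet) : ℕ :=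
  ∑ᶠ e ∈ T, (w e : ℕ)

/-- `T` is a spanning tree of minimum total weight. -/
def IsMST {V : Type} (G : SimpleGraph V) (w : Ranking G) (T : Set G.edgeSet) : Prop :=
  T ∈ trees G ∧ ∀ T' ∈ trees G, weight G w T ≤ weight G w T'

/-- The probability, for a uniformly random ranking of the edges, that the minimum spanning tree is splittable
into two equal halves. -/
noncomputable def pMST {V : Type} (G : SimpleGraph V) : ℚ :=
  ({w : Ranking G | ∃ T, IsMST G w T ∧ Splittable G T}.ncard : ℚ) /
    ((Set.univ : Set (Ranking G)).ncard : ℚ)

/-- The grid graph `P_a □ P_b`. -/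
def grid (a b : ℕ) : SimpleGraph (Fin a × Fin b) := pathGraph a □ pathGraph b

/-! ### Counting orders -/

open Finset in
open scoped Classical in
/-- One step of Kruskal's algorithm. -/
noncomputable def step (cross : Finset (Fin 10) → Fin 10 → Prop) (F : Finset (Fin 10)) (e : Fin 10) :
    Finset (Fin 10) := if cross F e then insert e F else F

open Finset in
open scoped Classical in
theorem count_orders (cross : Finset (Fin 10) → Fin 10 → Prop) (g : Finset (Fin 10) → ℕ) (L : ℕ)
    (Good inv : Finset (Fin 10) → Prop)
    (h1 : ∀ F e, inv F → cross F e → inv (insert e F))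
    (h2 : ∀ F e f, cross (insert e F) f → cross F f) (h2' : ∀ F e, ¬ cross (insert e F) e)
    (h3 : ∀ F, inv F → ∑ e, (if cross F e then g (insert e F) else 0) =
      (univ.filter (cross F)).card * g F)
    (h4 : ∀ F, inv F → (∀ e, ¬ cross F e) → g F = if Good F then L else 0) :
    ∀ (n : ℕ) (r : Fin n → Fin 10) (F : Finset (Fin 10)), Function.Injective r → inv F →
      (∀ e, cross F e → e ∈ Set.range r) →
      L * (univ.filter fun σ : Equiv.Perm (Fin n) =>
        Good ((List.ofFn fun i => r (σ i)).foldl (step cross) F)).card = n.factorial * g F := by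
  intro n
  induction n with
  | zero =>
    intro r F _ hF hc
    have h0 : ∀ e, ¬ cross F e := by
      intro e he
      obtain ⟨i, -⟩ := hc e he
      exact i.elim0
    rw [h4 F hF h0]
    by_cases hg : Good F
    · simp [hg]
    · simp [hg]
  | succ n ih =>
    intro r F hr hF hc
    have key : (univ.filter fun σ : Equiv.Perm (Fin (n + 1)) =>
        Good ((List.ofFn fun i => r (σ i)).foldl (step cross) F)).card =
        ∑ p : Fin (n + 1), (univ.filter fun σ : Equiv.Perm (Fin n) =>
          Good ((List.ofFn fun i => r (Equiv.swap 0 p (σ i).succ)).foldl (step cross)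
            (step cross F (r p)))).card := by
      rw [Finset.card_filter, ← Equiv.sum_comp Equiv.Perm.decomposeFin.symm, Fintype.sum_prod_type]
      refine Finset.sum_congr rfl fun p _ => ?_
      rw [Finset.card_filter]
      refine Finset.sum_congr rfl fun σ _ => ?_
      rw [List.ofFn_succ, List.foldl_cons]
      simp only [Equiv.Perm.decomposeFin_symm_apply_zero, Equiv.Perm.decomposeFin_symm_apply_succ]
    rw [key, Finset.mul_sum]
    have e1 : ∀ p : Fin (n + 1), L * (univ.filter fun σ : Equiv.Perm (Fin n) =>
          Good ((List.ofFn fun i => r (Equiv.swap 0 p (σ i).succ)).foldl (step cross)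
            (step cross F (r p)))).card = n.factorial * g (step cross F (r p)) := by
      intro p
      refine ih (fun i => r (Equiv.swap 0 p i.succ)) (step cross F (r p)) ?_ ?_ ?_
      · intro i j hij
        exact Fin.succ_injective _ ((Equiv.swap 0 p).injective (hr hij))
      · unfold step
        split_ifs with h
        · exact h1 _ _ hF h
        · exact hF
      · intro e he
        have he' : cross F e := by
          unfold step at he
          split_ifs at he with h
          · exact h2 _ _ _ he
          · exact he
        have hne : e ≠ r p := by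
          rintro rfl
          unfold step at he
          split_ifs at he
          exact h2' _ _ he
        obtain ⟨q, rfl⟩ := hc e he'
        have hqp : q ≠ p := fun h => hne (by rw [h])
        have hq0 : Equiv.swap 0 p q ≠ 0 := by
          intro h
          apply hqp
          have := congrArg (Equiv.swap 0 p) h
          rwa [Equiv.swap_apply_self, Equiv.swap_apply_left] at this
        obtain ⟨i, hi⟩ := Fin.exists_succ_eq.2 hq0
        refine ⟨i, ?_⟩
        show r (Equiv.swap 0 p i.succ) = r q
        rw [hi, Equiv.swap_apply_self]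
    rw [Finset.sum_congr rfl fun p _ => e1 p, ← Finset.mul_sum, Nat.factorial_succ]
    have push : ∀ φ : Fin 10 → ℕ, (∀ e, ¬ cross F e → φ e = 0) → ∑ p, φ (r p) = ∑ e, φ e := by
      intro φ hφ
      rw [← Finset.sum_image (s := univ) (g := r) (f := φ) (fun a _ b _ h => hr h)]
      refine Finset.sum_subset (Finset.subset_univ _) fun e _ he => hφ e fun hce => he ?_
      obtain ⟨p, rfl⟩ := hc e hce
      exact Finset.mem_image_of_mem _ (Finset.mem_univ _)
    have s1 := push (fun e => if cross F e then g (insert e F) else 0) (fun e he => if_neg he)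
    have s2 := push (fun e => if cross F e then g F else 0) (fun e he => if_neg he)
    have s3 : ∑ e, (if cross F e then g F else 0) = (univ.filter (cross F)).card * g F := by
      rw [← Finset.sum_filter, Finset.sum_const, smul_eq_mul]
    have s4 : ∑ p : Fin (n + 1), (g (step cross F (r p)) + (if cross F (r p) then g F else 0)) =
        ∑ p : Fin (n + 1), ((if cross F (r p) then g (insert (r p) F) else 0) + g F) := by
      refine Finset.sum_congr rfl fun p _ => ?_
      unfold step
      split_ifs <;> ring
    rw [Finset.sum_add_distrib, Finset.sum_add_distrib] at s4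
    simp only [Finset.sum_const, Finset.card_univ, Fintype.card_fin, smul_eq_mul] at s4
    have s5 := h3 F hF
    have : ∑ p : Fin (n + 1), g (step cross F (r p)) = (n + 1) * g F := by
      have a1 : ∑ p : Fin (n + 1), (if cross F (r p) then g (insert (r p) F) else 0) =
        (univ.filter (cross F)).card * g F := s1.trans s5
      have a2 : ∑ p : Fin (n + 1), (if cross F (r p) then g F else 0) =
        (univ.filter (cross F)).card * g F := s2.trans s3
      omega
    rw [this]
    ring

/-! ### The algorithm -/

/-- The vertices. -/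
abbrev V : Type := Fin 2 × Fin 4

/-- The edges. -/
def ed : Fin 10 → V × V :=
  ![((0, 0), (0, 1)), ((0, 1), (0, 2)), ((0, 2), (0, 3)), ((1, 0), (1, 1)), ((1, 1), (1, 2)),
    ((1, 2), (1, 3)), ((0, 0), (1, 0)), ((0, 1), (1, 1)), ((0, 2), (1, 2)), ((0, 3), (1, 3))]

/-- The number of a vertex. -/
def num (x : V) : ℕ := 4 * x.1.val + x.2.val

theorem num_lt (x : V) : num x < 8 := by
  unfold num
  omega

theorem ed_ne (i : Fin 10) : (ed i).1 ≠ (ed i).2 := by
  revert i
  decide

theorem ed_inj (i j : Fin 10) (h : s((ed i).1, (ed i).2) = s((ed j).1, (ed j).2)) : i = j := by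
  revert i j
  decide

/-- The graph of a list of edges. -/
def gr : List (Fin 10) → SimpleGraph V
  | [] => ⊥
  | i :: l => gr l ⊔ edge (ed i).1 (ed i).2

/-- Labels of the connected components; `none` if there is a cycle. -/
def run : List (Fin 10) → Option (List ℕ)
  | [] => some [0, 1, 2, 3, 4, 5, 6, 7]
  | i :: l =>
    match run l with
    | none => none
    | some lab =>
      if lab.getD (num (ed i).1) 0 = lab.getD (num (ed i).2) 0 then none
      else some (lab.map fun t => if t = lab.getD (num (ed i).2) 0 then lab.getD (num (ed i).1) 0 else t)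

theorem gr_adj (l : List (Fin 10)) (x y : V) :
    (gr l).Adj x y ↔ x ≠ y ∧ ∃ i ∈ l, s((ed i).1, (ed i).2) = s(x, y) := by
  induction l with
  | nil => simp [gr]
  | cons p l ih =>
    show (gr l ⊔ edge (ed p).1 (ed p).2).Adj x y ↔ _
    rw [sup_adj, ih, edge_adj]
    constructor
    · rintro (⟨h1, q, hq, h2⟩ | ⟨h1, h2⟩)
      · exact ⟨h1, q, List.mem_cons_of_mem _ hq, h2⟩
      · refine ⟨h2, p, by simp, ?_⟩
        rcases h1 with ⟨a, b⟩ | ⟨a, b⟩
        · rw [a, b]
        · rw [a, b]
          exact Sym2.eq_swap
    · rintro ⟨h1, q, hq, h2⟩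
      rcases List.mem_cons.1 hq with rfl | hq
      · right
        refine ⟨?_, h1⟩
        rw [Sym2.eq_iff] at h2
        rcases h2 with ⟨a, b⟩ | ⟨a, b⟩
        · exact Or.inl ⟨a.symm, b.symm⟩
        · exact Or.inr ⟨b.symm, a.symm⟩
      · exact Or.inl ⟨h1, q, hq, h2⟩

/-- The state of the algorithm is correct. -/
def Good (l : List (Fin 10)) (lab : List ℕ) : Prop :=
  lab.length = 8 ∧ ∀ x y : V, (gr l).Reachable x y ↔ lab.getD (num x) 0 = lab.getD (num y) 0

theorem getD_map (lab : List ℕ) (h : lab.length = 8) (f : ℕ → ℕ) (x : V) :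
    (lab.map f).getD (num x) 0 = f (lab.getD (num x) 0) := by
  have hx : num x < lab.length := by
    have := num_lt x
    omega
  rw [List.getD_eq_getElem _ _ (by simpa using hx), List.getD_eq_getElem _ _ hx, List.getElem_map]

theorem good_cons (p : Fin 10) (l : List (Fin 10)) (lab : List ℕ) (h : Good l lab) :
    Good (p :: l)
      (lab.map fun t => if t = lab.getD (num (ed p).2) 0 then lab.getD (num (ed p).1) 0 else t) := by
  obtain ⟨h1, h2⟩ := h
  refine ⟨by simpa using h1, fun x y => ?_⟩
  rw [getD_map _ h1, getD_map _ h1]
  set L : V → ℕ := fun x => lab.getD (num x) 0 with hL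
  have hr : ∀ x y, (gr l).Reachable x y ↔ L x = L y := h2
  show (gr l ⊔ edge (ed p).1 (ed p).2).Reachable x y ↔
    (if L x = L (ed p).2 then L (ed p).1 else L x) = (if L y = L (ed p).2 then L (ed p).1 else L y)
  have up : ∀ a b, (gr l).Reachable a b → (gr l ⊔ edge (ed p).1 (ed p).2).Reachable a b := fun a b hab =>
    hab.mono le_sup_left
  have hedge : (gr l ⊔ edge (ed p).1 (ed p).2).Reachable (ed p).1 (ed p).2 :=
    Adj.reachable (by rw [sup_adj, edge_adj]; exact Or.inr ⟨Or.inl ⟨rfl, rfl⟩, ed_ne p⟩)
  constructor
  · intro hxy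
    obtain ⟨w⟩ := hxy
    induction w with
    | nil => rfl
    | @cons a b c hab _ ih =>
      rw [← ih]
      rw [sup_adj, edge_adj] at hab
      rcases hab with hab | ⟨⟨ha, hb⟩ | ⟨ha, hb⟩, -⟩
      · rw [(hr a b).1 hab.reachable]
      · rw [ha, hb]
        simp
      · rw [ha, hb]
        simp
  · intro hxy
    by_cases hx : L x = L (ed p).2 <;> by_cases hy : L y = L (ed p).2
    · exact up _ _ ((hr x y).2 (hx.trans hy.symm))
    · rw [if_pos hx, if_neg hy] at hxy
      exact ((up _ _ ((hr x (ed p).2).2 hx)).trans hedge.symm).trans (up _ _ ((hr _ _).2 hxy))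
    · rw [if_neg hx, if_pos hy] at hxy
      exact ((up _ _ ((hr x (ed p).1).2 hxy)).trans hedge).trans (up _ _ ((hr _ _).2 hy.symm))
    · rw [if_neg hx, if_neg hy] at hxy
      exact up _ _ ((hr x y).2 hxy)

theorem not_adj_of_not_mem (l : List (Fin 10)) (p : Fin 10) (hp : p ∉ l) :
    ¬ (gr l).Adj (ed p).1 (ed p).2 := by
  rw [gr_adj]
  rintro ⟨-, q, hq, h⟩
  exact hp (ed_inj _ _ h ▸ hq)

theorem run_spec (l : List (Fin 10)) (hl : l.Nodup) :
    (∀ lab, run l = some lab → (gr l).IsAcyclic ∧ Good l lab) ∧ (run l = none → ¬ (gr l).IsAcyclic) := by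
  induction l with
  | nil =>
    refine ⟨fun lab h => ?_, fun h => by simp [run] at h⟩
    have : lab = [0, 1, 2, 3, 4, 5, 6, 7] := by simpa [run] using h.symm
    subst this
    refine ⟨isAcyclic_bot, rfl, fun x y => ?_⟩
    show (⊥ : SimpleGraph V).Reachable x y ↔ _
    rw [reachable_bot]
    revert x y
    decide
  | cons p l ih =>
    obtain ⟨hl1, hl2⟩ := List.nodup_cons.1 hl
    have ih := ih hl2
    have hnadj := not_adj_of_not_mem l p hl1
    rcases hrun : run l with _ | lab
    · have h1 := ih.2 hrun
      refine ⟨fun lab h => by simp [run, hrun] at h, fun _ h => h1 (h.anti le_sup_left)⟩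
    · obtain ⟨h1, h2⟩ := ih.1 lab hrun
      by_cases hc : lab.getD (num (ed p).1) 0 = lab.getD (num (ed p).2) 0
      · refine ⟨fun lab h => absurd h (by simp only [run, hrun, if_pos hc]; simp), fun _ h => ?_⟩
        have h3 := (isAcyclic_sup_fromEdgeSet_iff.1 h).2 ((h2.2 _ _).2 hc)
        rcases h3 with h3 | h3
        · exact ed_ne p h3
        · exact hnadj h3
      · refine ⟨fun lab' h => ?_, fun h => absurd h (by simp only [run, hrun, if_neg hc]; simp)⟩
        have e : run (p :: l) = some (lab.map fun t =>
            if t = lab.getD (num (ed p).2) 0 then lab.getD (num (ed p).1) 0 else t) := by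
          simp only [run, hrun, if_neg hc]
        rw [e] at h
        obtain rfl := Option.some.inj h
        refine ⟨?_, good_cons p l lab h2⟩
        exact isAcyclic_sup_fromEdgeSet_iff.2 ⟨h1, fun h3 => absurd ((h2.2 _ _).1 h3) hc⟩

/-! ### Sets of edges as finsets of indices -/

/-- The graph of a finset of edges. -/
def grF (F : Finset (Fin 10)) : SimpleGraph V :=
  fromEdgeSet ((fun i => s((ed i).1, (ed i).2)) '' (F : Set (Fin 10)))

theorem grF_adj (F : Finset (Fin 10)) (x y : V) :
    (grF F).Adj x y ↔ x ≠ y ∧ ∃ i ∈ F, s((ed i).1, (ed i).2) = s(x, y) := by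
  rw [grF, fromEdgeSet_adj, and_comm]
  simp

theorem grF_toFinset (l : List (Fin 10)) : grF l.toFinset = gr l := by
  ext x y
  rw [grF_adj, gr_adj]
  simp

theorem grF_mono {F F' : Finset (Fin 10)} (h : F ⊆ F') : grF F ≤ grF F' := by
  intro x y hxy
  rw [grF_adj] at *
  obtain ⟨h1, i, hi, h2⟩ := hxy
  exact ⟨h1, i, h hi, h2⟩

/-- The edge `e` joins two components of `F`. -/
def crossF (F : Finset (Fin 10)) (e : Fin 10) : Prop := ¬ (grF F).Reachable (ed e).1 (ed e).2

theorem crossF_anti {F F' : Finset (Fin 10)} (h : F ⊆ F') (e : Fin 10) (he : crossF F' e) : crossF F e :=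
  fun h' => he (h'.mono (grF_mono h))

theorem not_crossF_of_mem {F : Finset (Fin 10)} {e : Fin 10} (he : e ∈ F) : ¬ crossF F e := by
  intro h
  refine h (Adj.reachable ?_)
  rw [grF_adj]
  exact ⟨ed_ne e, e, he, rfl⟩

theorem grF_insert (F : Finset (Fin 10)) (e : Fin 10) :
    grF (insert e F) = grF F ⊔ edge (ed e).1 (ed e).2 := by
  have h1 : F = F.toList.toFinset := by simp
  have h2 : insert e F = (e :: F.toList).toFinset := by simp
  rw [h2, grF_toFinset]
  conv_rhs => rw [h1, grF_toFinset]
  rfl

theorem acyclic_insert (F : Finset (Fin 10)) (e : Fin 10) (h : (grF F).IsAcyclic) (he : crossF F e) :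
    (grF (insert e F)).IsAcyclic := by
  rw [grF_insert]
  exact isAcyclic_sup_fromEdgeSet_iff.2 ⟨h, fun h3 => absurd h3 he⟩

theorem cross_of_acyclic (F : Finset (Fin 10)) (e : Fin 10) (h : (grF (insert e F)).IsAcyclic)
    (he : e ∉ F) : crossF F e := by
  intro hr
  rw [grF_insert] at h
  rcases (isAcyclic_sup_fromEdgeSet_iff.1 h).2 hr with h3 | h3
  · exact ed_ne e h3
  · rw [grF_adj] at h3
    obtain ⟨-, i, hi, h4⟩ := h3
    exact he (ed_inj _ _ h4 ▸ hi)

theorem finset_ind (P : Finset (Fin 10) → Prop)
    (h : ∀ l ∈ (List.finRange 10).sublists, P l.toFinset) : ∀ F, P F := by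
  intro F
  have h1 : F = ((List.finRange 10).filter (· ∈ F)).toFinset := by
    ext i
    simp
  rw [h1]
  exact h _ (List.mem_sublists.2 List.filter_sublist)

/-- The number of a list of edges. -/
def mask (l : List (Fin 10)) : ℕ := (l.map fun i => 2 ^ i.val).sum

/-- The number of a set of edges. -/
def maskF (F : Finset (Fin 10)) : ℕ := ∑ i ∈ F, 2 ^ i.val

theorem maskF_toFinset (l : List (Fin 10)) (hl : l.Nodup) : maskF l.toFinset = mask l :=
  List.sum_toFinset _ hl

/-- The table of values. -/
def table : ℕ := 0xb130000000000000000000000000b130b13000000000000000000000b1300000b1300000000000000000b130b130b130b130000000000000b130000000000000b13000000000b130b13000000000b130b1300000b1300000b1300000b1300000b130b130b130b130b130b130b130b130b130000000000000000000000000b130b130000000000000000000000000b130b1300000000000000000b130b130b130b1300000000000000000b130b130b130b13000000000b130b13000000000b130b13000000000b130b13000000000b130b130b130b130b130b130b130b130b130b130b130b130b130b130b130b130b130b130000000000000000000000000b13076200000000000000000b1305898b1308c46000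0000000000000b1307620b13093a80000000000000000b1308c46b1309c840000b130b130b13000005898b13093a80000589876208c465898589893a88c46b130b130b130b130b13093a8b130a26c76208c4693a89c8493a88c46a26c9c840000000000000000000000007620675c000000000000000058983b108c467c0800000000000000007620675c93a887d800000000000000008c467c089c8491b00000589876208c4600002c4c762079d100003b10675c7c082c4c3b1079d17c0876208c4693a89c84762079d193a8922e675c7c0887d891b079d17c08922e91b0000000000000b130000000000000762000000000b130b130b1305898b13093a80000b1300000b13000007620000093a8b130b130b130b130b13093a8b130a26c0000b1300000b1300000589800008c4600005898762093a8589858988c468c460000b1300000b13000008c4600009c84762093a893a8a26c8c468c469c849c8400000000b130b130000000007620762000000000b130b13058983b1093a889d0b130b130b130b1307620762093a893a8b130b130b130b13093a889d0a26c9d8000005898762093a800002c4c675c79d100003b10762089d02c4c3b1079d17ff8762093a893a8a26c675c79d187d8922e762089d093a89d8079d17ff8922e95a00000b130b130b130b1305898b13087d8b130b130b130b130b1307c08b130965db130b130b130b130b13087d8b1309990b130b130b130b130b130965d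b130a116b130b130b130b130b1307c08b130965d58987c0887d8965d7c087038965d8e08b130b130b130b130b130965db130a11687d8965d9990a116965d8e08a1169b2eb130b130b130b130589846e087d87b8ab130b130b130b1307c086660965d89f4b130b130b130b13087d87b8a999090fcb130b130b130b130965d89f4a11698ee58987c0887d8965d46e04fbc7b8a7c7446e066607b8a89f44fbc54f07c747d7987d8965d9990a1167b8a7c7490fc902d7b8a89f490fc98ee7c747d79902d8ff6000000000000b130000000000000b13000000000b130b13000000000b130b1300000b1300000b1300000b1300000b130b130b130b130b130b130b130b130b130000000000000b130000000000000b13000000000b130b13000000000b130b1300000b1300000b1300000b1300000b130b130b130b130b130b130b130b130b13000000000b130b13000000000b130b13000000000b130b13000000000b130b130b130b130b130b130b130b130b130b130b130b130b130b130b130b130b130b13000000000b130b13000000000b130b13000000000b130b13000000000b130b130b130b130b130b130b130b130b130b130b130b130b130b130b130b130b130b13000000000b130762000000000b1307620000000007620675c58982c4c93a879d1b1307620b13093a8b1307620b13093a87620675c93a887d893a879d1a26c922e00005898b13093a800003b10b13089d000002c4c76207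9d13b103b1089d07ff8b13093a8b130a26cb13089d0b1309d80762079d193a8922e89d07ff89d8095a0b1305898b1308c4658982c4c93a879d158983b108c467c0858983b108c467c08b1308c46b1309c8493a879d1a26c922e8c467c089c8491b08c467c089c8491b05898589893a88c463b103b1089d07ff82c4c3b1079d17c083b103b107ff87c0893a88c46a26c9c8489d07ff89d8095a079d17c08922e91b07ff87c0895a091b00000000000007620000000000000675c000000007620762058982c4c8c4679d100007620000093a80000675c000087d87620762093a893a88c4679d19c84922e0000589800008c4600003b1000007c0800002c4c675c79d13b103b107c087c0800008c4600009c8400007c08000091b0675c79d187d8922e7c087c0891b091b0b1305898b13093a858982c4c8c4679d158983b1093a889d058983b108c467ff8b13093a8b130a26c8c4679d19c84922e93a889d0a26c9d808c467ff89c8495a0589858988c468c463b103b107c087c082c4c3b1079d17ff83b103b107c087c088c468c469c849c847c087c0891b091b079d17ff8922e95a07c087c0891b091b0b1305898b13087d8b13046e0b1307b8a589846e087d87b8a7c084fbc965d7c74b13087d8b1309990b1307b8ab13090fc87d87b8a999090fc965d7c74a116902db1307c08b130965db1306660b13089f446e04fbc7b8a7c74666054f089f47d79b130965db130a116b13089f4b13098ee7b8a7c7490fc902d89f47d7998ee8ff6b1307c08b130965d7c084fbc965d7c747c086660965d89f4703854f08e087d79b130965db130a116965d7c74a116902d965d89f4a11698ee8e087d799b2e8ff67c087038965d8e08666054f089f47d794fbc54f07c747d7954f04e787d7977ee965d8e08a1169b2e89f47d7998ee8ff67c747d79902d8ff67d7977ee8ff68b80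

/-- The set of the numbers of the spanning trees. -/
def treeTable : ℕ := 0x102040810204080020008002000800006080800608080000800000080000000142840804080000028008000800000006880800080000000800000000000000010204080000000002000800000000000608080000000000080000000000000004080000000000000800000000000000080000000000000000000000000000000

/-- The harmonic function. -/
def gval (m : ℕ) : ℕ := (table >>> (16 * m)) % 65536

/-- The edge `e` joins two components. -/
def diff (lab : List ℕ) (e : Fin 10) : Bool :=
  !(Nat.beq (lab.getD (num (ed e).1) 0) (lab.getD (num (ed e).2) 0))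

/-- There is only one component. -/
def conn (lab : List ℕ) : Bool := lab.all fun t => Nat.beq t (lab.getD 0 0)

/-- The list of the vertices. -/
def vs : List V := [(0, 0), (0, 1), (0, 2), (0, 3), (1, 0), (1, 1), (1, 2), (1, 3)]

/-- All components have 4 vertices. -/
def half (l : List (Fin 10)) : Bool :=
  match run l with
  | none => false
  | some lab => vs.all fun x =>
      Nat.beq (2 * (vs.filter fun y => Nat.beq (lab.getD (num y) 0) (lab.getD (num x) 0)).length) 8

/-- Splittable. -/
def split (l : List (Fin 10)) : Bool := l.any fun e => half (l.erase e)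

/-- The checks for one set of edges. -/
def chk (l : List (Fin 10)) : Bool :=
  match run l with
  | none => !(treeTable.testBit (mask l))
  | some lab =>
    Nat.beq ((List.finRange 10).map fun e => if diff lab e then gval (2 ^ e.val + mask l) else 0).sum
      (((List.finRange 10).map fun e => if diff lab e then 1 else 0).sum * gval (mask l)) &&
    (treeTable.testBit (mask l) == conn lab) &&
    (if (List.finRange 10).all (fun e => !diff lab e) then
      conn lab && Nat.beq (gval (mask l)) (if split l then 45360 else 0) else true)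

theorem chk_all : ((List.finRange 10).sublists).all chk = true := by
  decide +kernel

/-- The exchange property. -/
def exch (T : List (List (Fin 10))) : Bool :=
  T.all fun K => T.all fun M => decide (K = M) ||
    (K.any fun e => !(M.contains e) && (M.any fun f => !(K.contains f) &&
      treeTable.testBit (2 ^ e.val + mask M - 2 ^ f.val) &&
      treeTable.testBit (2 ^ f.val + mask K - 2 ^ e.val)))

theorem exch_all : exch (((List.finRange 10).sublists).filter fun l => treeTable.testBit (mask l)) =
    true := by
  decide +kernel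

theorem chk_of (l : List (Fin 10)) (hl : l ∈ (List.finRange 10).sublists) : chk l = true :=
  List.all_eq_true.1 chk_all l hl

theorem nodup_of (l : List (Fin 10)) (hl : l ∈ (List.finRange 10).sublists) : l.Nodup :=
  (List.mem_sublists.1 hl).nodup (List.nodup_finRange 10)

theorem diff_iff (l : List (Fin 10)) (lab : List ℕ) (h : Good l lab) (e : Fin 10) :
    diff lab e = true ↔ crossF l.toFinset e := by
  rw [crossF, grF_toFinset, h.2, diff, Bool.not_eq_true', ← Bool.not_eq_true, Nat.beq_eq]

theorem conn_iff (l : List (Fin 10)) (lab : List ℕ) (h : Good l lab) :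
    conn lab = true ↔ (gr l).Connected := by
  obtain ⟨h1, h2⟩ := h
  have h0 : num ((0, 0) : V) = 0 := rfl
  constructor
  · intro hc
    refine { preconnected := fun x y => ?_, nonempty := ⟨(0, 0)⟩ }
    rw [h2]
    have key : ∀ x : V, lab.getD (num x) 0 = lab.getD 0 0 := by
      intro x
      have hx : num x < lab.length := by
        have := num_lt x
        omega
      have := List.all_eq_true.1 hc (lab.getD (num x) 0) (by
        rw [List.getD_eq_getElem _ _ hx]
        exact List.getElem_mem _)
      exact Nat.eq_of_beq_eq_true this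
    rw [key x, key y]
  · intro hc
    refine List.all_eq_true.2 fun t ht => ?_
    obtain ⟨i, hi, rfl⟩ := List.getElem_of_mem ht
    have hsurj : ∀ i : Fin 8, ∃ x : V, num x = i.val := by
      decide
    obtain ⟨x, hx⟩ := hsurj ⟨i, by omega⟩
    have := (h2 x (0, 0)).1 (hc.preconnected _ _)
    rw [h0, hx, List.getD_eq_getElem _ _ hi] at this
    show Nat.beq _ _ = true
    rw [this]
    exact Nat.beq_refl _

theorem vs_nodup : vs.Nodup := by decide

theorem mem_vs (x : V) : x ∈ vs := by
  revert x
  decide

theorem half_iff (l : List (Fin 10)) (hl : l.Nodup) (ha : (gr l).IsAcyclic) :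
    half l = true ↔ ∀ c : (gr l).ConnectedComponent, 2 * c.supp.ncard = Nat.card V := by
  classical
  rcases h : run l with _ | lab
  · exact absurd ha ((run_spec l hl).2 h)
  · obtain ⟨-, h1, h2⟩ := (run_spec l hl).1 lab h
    have hV : Nat.card V = 8 := by simp [V]
    have key : ∀ x : V, ((gr l).connectedComponentMk x).supp.ncard =
        (vs.filter fun y => Nat.beq (lab.getD (num y) 0) (lab.getD (num x) 0)).length := by
      intro x
      have e : ((gr l).connectedComponentMk x).supp =
          ((vs.filter fun y => Nat.beq (lab.getD (num y) 0) (lab.getD (num x) 0)).toFinset : Set V) := by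
        ext y
        rw [ConnectedComponent.mem_supp_iff, ConnectedComponent.eq, h2]
        simp [mem_vs]
      rw [e, Set.ncard_coe_finset, List.toFinset_card_of_nodup (vs_nodup.filter _)]
    rw [hV]
    simp only [half, h]
    rw [List.all_eq_true]
    constructor
    · intro hh c
      refine ConnectedComponent.ind (fun x => ?_) c
      rw [key x]
      exact Nat.eq_of_beq_eq_true (hh x (mem_vs x))
    · intro hh x _
      have := hh ((gr l).connectedComponentMk x)
      rw [key x] at this
      rw [this]
      rfl

/-- The splitting property. -/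
def SplitF (F : Finset (Fin 10)) : Prop :=
  ∃ e ∈ F, ∀ c : (grF (F.erase e)).ConnectedComponent, 2 * c.supp.ncard = Nat.card V

theorem split_iff (l : List (Fin 10)) (hl : l.Nodup) (ha : (gr l).IsAcyclic) :
    split l = true ↔ SplitF l.toFinset := by
  rw [split, List.any_eq_true, SplitF]
  refine exists_congr fun e => ?_
  have h1 : l.toFinset.erase e = (l.erase e).toFinset := by
    ext i
    simp [hl.mem_erase_iff]
  have h2 : gr (l.erase e) ≤ gr l := by
    intro x y hxy
    rw [gr_adj] at *
    obtain ⟨h1, i, hi, h2⟩ := hxy
    exact ⟨h1, i, List.mem_of_mem_erase hi, h2⟩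
  rw [List.mem_toFinset]
  refine and_congr_right fun _ => ?_
  rw [h1, grF_toFinset, half_iff _ (hl.erase e) (ha.anti h2)]

/-- The harmonic function. -/
def gF (F : Finset (Fin 10)) : ℕ := gval (maskF F)

theorem maskF_insert (F : Finset (Fin 10)) (e : Fin 10) (he : e ∉ F) :
    maskF (insert e F) = 2 ^ e.val + maskF F := Finset.sum_insert he

theorem facts (F : Finset (Fin 10)) :
    (treeTable.testBit (maskF F) = true ↔ (grF F).IsTree) ∧
    ((grF F).IsAcyclic → (∀ e, ¬ crossF F e) → (grF F).IsTree) := by
  refine finset_ind (fun F => (treeTable.testBit (maskF F) = true ↔ (grF F).IsTree) ∧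
    ((grF F).IsAcyclic → (∀ e, ¬ crossF F e) → (grF F).IsTree)) (fun l hl => ?_) F
  have hc := chk_of l hl
  have hnd := nodup_of l hl
  rw [maskF_toFinset l hnd, grF_toFinset]
  rcases h : run l with _ | lab
  · have h2 := (run_spec l hnd).2 h
    simp only [chk, h] at hc
    refine ⟨⟨fun h3 => by simp [h3] at hc, fun h3 => absurd h3.2 h2⟩, fun h3 => absurd h3 h2⟩
  · obtain ⟨h1, h2⟩ := (run_spec l hnd).1 lab h
    simp only [chk, h, Bool.and_eq_true, beq_iff_eq] at hc
    obtain ⟨⟨-, hc2⟩, hc3⟩ := hc
    refine ⟨?_, fun _ h3 => ?_⟩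
    · rw [hc2, conn_iff l lab h2]
      exact ⟨fun h3 => ⟨h3, h1⟩, fun h3 => h3.1⟩
    · have h4 : (List.finRange 10).all (fun e => !diff lab e) = true := by
        refine List.all_eq_true.2 fun e _ => ?_
        have := h3 e
        rw [← diff_iff l lab h2] at this
        simpa using this
      rw [if_pos h4, Bool.and_eq_true] at hc3
      exact ⟨(conn_iff l lab h2).1 hc3.1, h1⟩

open scoped Classical in
theorem harmonic (F : Finset (Fin 10)) (hF : (grF F).IsAcyclic) :
    (∑ e, (if crossF F e then gF (insert e F) else 0) =
      (Finset.univ.filter (crossF F)).card * gF F) ∧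
    ((∀ e, ¬ crossF F e) → gF F = if SplitF F then 45360 else 0) := by
  revert hF
  refine finset_ind (fun F => (grF F).IsAcyclic →
    (∑ e, (if crossF F e then gF (insert e F) else 0) =
      (Finset.univ.filter (crossF F)).card * gF F) ∧
    ((∀ e, ¬ crossF F e) → gF F = if SplitF F then 45360 else 0)) (fun l hl hF => ?_) F
  have hc := chk_of l hl
  have hnd := nodup_of l hl
  have hg : gF l.toFinset = gval (mask l) := by rw [gF, maskF_toFinset l hnd]
  rw [grF_toFinset] at hF
  rcases h : run l with _ | lab
  · exact absurd hF ((run_spec l hnd).2 h)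
  · obtain ⟨h1, h2⟩ := (run_spec l hnd).1 lab h
    simp only [chk, h, Bool.and_eq_true] at hc
    obtain ⟨⟨hc1, -⟩, hc3⟩ := hc
    refine ⟨?_, fun h3 => ?_⟩
    · have hc1 := Nat.eq_of_beq_eq_true hc1
      rw [← Fin.sum_univ_def, ← Fin.sum_univ_def] at hc1
      rw [Finset.card_filter, hg]
      refine Eq.trans (Eq.trans ?_ hc1) ?_
      · refine Finset.sum_congr rfl fun e _ => ?_
        by_cases he : crossF l.toFinset e
        · rw [if_pos he, if_pos ((diff_iff l lab h2 e).2 he), gF, maskF_insert, maskF_toFinset l hnd]
          exact fun h4 => not_crossF_of_mem h4 he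
        · rw [if_neg he, if_neg fun h4 => he ((diff_iff l lab h2 e).1 h4)]
      · congr 1
        refine Finset.sum_congr rfl fun e _ => ?_
        by_cases he : crossF l.toFinset e
        · rw [if_pos he, if_pos ((diff_iff l lab h2 e).2 he)]
        · rw [if_neg he, if_neg fun h4 => he ((diff_iff l lab h2 e).1 h4)]
    · have h4 : (List.finRange 10).all (fun e => !diff lab e) = true := by
        refine List.all_eq_true.2 fun e _ => ?_
        have := h3 e
        rw [← diff_iff l lab h2] at this
        simpa using this
      rw [if_pos h4, Bool.and_eq_true] at hc3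
      rw [hg, Nat.eq_of_beq_eq_true hc3.2]
      by_cases hs : SplitF l.toFinset
      · rw [if_pos hs, if_pos ((split_iff l hnd hF).2 hs)]
      · rw [if_neg hs, if_neg fun h5 => hs ((split_iff l hnd hF).1 h5)]

theorem exchange (K M : Finset (Fin 10)) (hK : (grF K).IsTree) (hM : (grF M).IsTree) (hne : K ≠ M) :
    ∃ e ∈ K, e ∉ M ∧ ∃ f ∈ M, f ∉ K ∧ (grF (insert e (M.erase f))).IsTree ∧
      (grF (insert f (K.erase e))).IsTree := by
  revert hK hM hne
  refine finset_ind (fun K => (grF K).IsTree → (grF M).IsTree → K ≠ M →
    ∃ e ∈ K, e ∉ M ∧ ∃ f ∈ M, f ∉ K ∧ (grF (insert e (M.erase f))).IsTree ∧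
      (grF (insert f (K.erase e))).IsTree) (fun lK hlK => ?_) K
  refine finset_ind (fun M => (grF lK.toFinset).IsTree → (grF M).IsTree → lK.toFinset ≠ M →
    ∃ e ∈ lK.toFinset, e ∉ M ∧ ∃ f ∈ M, f ∉ lK.toFinset ∧ (grF (insert e (M.erase f))).IsTree ∧
      (grF (insert f (lK.toFinset.erase e))).IsTree) (fun lM hlM => ?_) M
  intro hK hM hne
  have hndK := nodup_of lK hlK
  have hndM := nodup_of lM hlM
  have mK : lK ∈ ((List.finRange 10).sublists).filter fun l => treeTable.testBit (mask l) := by
    rw [List.mem_filter, ← maskF_toFinset lK hndK, (facts _).1]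
    exact ⟨hlK, hK⟩
  have mM : lM ∈ ((List.finRange 10).sublists).filter fun l => treeTable.testBit (mask l) := by
    rw [List.mem_filter, ← maskF_toFinset lM hndM, (facts _).1]
    exact ⟨hlM, hM⟩
  have h := List.all_eq_true.1 (List.all_eq_true.1 exch_all lK mK) lM mM
  rw [Bool.or_eq_true] at h
  rcases h with h | h
  · exact absurd (by rw [of_decide_eq_true h]) hne
  · rw [List.any_eq_true] at h
    obtain ⟨e, heK, h⟩ := h
    rw [Bool.and_eq_true, List.any_eq_true] at h
    obtain ⟨heM, f, hfM, h⟩ := h
    rw [Bool.and_eq_true, Bool.and_eq_true] at h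
    obtain ⟨⟨hfK, t1⟩, t2⟩ := h
    have heM : e ∉ lM := by simpa using heM
    have hfK : f ∉ lK := by simpa using hfK
    have c1 : maskF (insert e (lM.toFinset.erase f)) = 2 ^ e.val + mask lM - 2 ^ f.val := by
      rw [maskF_insert _ _ (by simp [heM]), ← maskF_toFinset lM hndM]
      have h9 : maskF (lM.toFinset.erase f) + 2 ^ f.val = maskF lM.toFinset :=
        Finset.sum_erase_add lM.toFinset (fun i : Fin 10 => 2 ^ i.val) (List.mem_toFinset.2 hfM)
      have p1 : 0 < 2 ^ e.val := by positivity
      omega
    have c2 : maskF (insert f (lK.toFinset.erase e)) = 2 ^ f.val + mask lK - 2 ^ e.val := by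
      rw [maskF_insert _ _ (by simp [hfK]), ← maskF_toFinset lK hndK]
      have h9 : maskF (lK.toFinset.erase e) + 2 ^ e.val = maskF lK.toFinset :=
        Finset.sum_erase_add lK.toFinset (fun i : Fin 10 => 2 ^ i.val) (List.mem_toFinset.2 heK)
      have p1 : 0 < 2 ^ f.val := by positivity
      omega
    rw [← c1, (facts _).1] at t1
    rw [← c2, (facts _).1] at t2
    exact ⟨e, by simpa using heK, by simpa using heM, f, by simpa using hfM, by simpa using hfK, t1, t2⟩

/-! ### Kruskal's algorithm -/

/-- The result of Kruskal's algorithm. -/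
noncomputable def kr (F : Finset (Fin 10)) (l : List (Fin 10)) : Finset (Fin 10) :=
  l.foldl (step crossF) F

theorem subset_step (F : Finset (Fin 10)) (e : Fin 10) : F ⊆ step crossF F e := by
  unfold step
  split_ifs
  · exact Finset.subset_insert _ _
  · exact fun _ h => h

theorem not_cross_step (F : Finset (Fin 10)) (e : Fin 10) : ¬ crossF (step crossF F e) e := by
  unfold step
  split_ifs with h
  · exact not_crossF_of_mem (Finset.mem_insert_self _ _)
  · exact h

theorem subset_kr (F : Finset (Fin 10)) (l : List (Fin 10)) : F ⊆ kr F l := by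
  induction l generalizing F with
  | nil => exact fun _ h => h
  | cons e l ih => exact (subset_step F e).trans (ih _)

theorem mem_kr (F : Finset (Fin 10)) (l : List (Fin 10)) (x : Fin 10) (hx : x ∈ kr F l) :
    x ∈ F ∨ x ∈ l := by
  induction l generalizing F with
  | nil => exact Or.inl hx
  | cons e l ih =>
    rcases ih _ hx with h | h
    · unfold step at h
      split_ifs at h
      · rcases Finset.mem_insert.1 h with rfl | h
        · exact Or.inr (by simp)
        · exact Or.inl h
      · exact Or.inl h
    · exact Or.inr (List.mem_cons_of_mem _ h)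

theorem acyclic_kr (F : Finset (Fin 10)) (l : List (Fin 10)) (h : (grF F).IsAcyclic) :
    (grF (kr F l)).IsAcyclic := by
  induction l generalizing F with
  | nil => exact h
  | cons e l ih =>
    refine ih _ ?_
    unfold step
    split_ifs with h1
    · exact acyclic_insert F e h h1
    · exact h

theorem kr_append (F : Finset (Fin 10)) (l l' : List (Fin 10)) : kr F (l ++ l') = kr (kr F l) l' :=
  List.foldl_append

theorem not_cross_kr (l : List (Fin 10)) (e : Fin 10) (he : e ∈ l) : ¬ crossF (kr ∅ l) e := by
  obtain ⟨l1, l2, rfl⟩ := List.append_of_mem he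
  rw [kr_append]
  intro h
  exact not_cross_step (kr ∅ l1) e (crossF_anti (subset_kr _ l2) e h)

theorem not_cross_before (l1 l2 : List (Fin 10)) (f : Fin 10) (hf : f ∉ kr ∅ (l1 ++ f :: l2)) :
    ¬ crossF (kr ∅ l1) f := by
  intro h
  apply hf
  rw [kr_append]
  refine subset_kr _ l2 ?_
  show f ∈ step crossF (kr ∅ l1) f
  unfold step
  rw [if_pos h]
  exact Finset.mem_insert_self _ _

/-- The list of the edges, from the lightest to the heaviest. -/
def order (σ : Equiv.Perm (Fin 10)) : List (Fin 10) := List.ofFn σ

theorem mem_order (σ : Equiv.Perm (Fin 10)) (e : Fin 10) : e ∈ order σ := by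
  rw [order, List.mem_ofFn]
  exact σ.surjective e

theorem kr_tree (σ : Equiv.Perm (Fin 10)) : (grF (kr ∅ (order σ))).IsTree := by
  refine (facts _).2 (acyclic_kr _ _ ?_) fun e => not_cross_kr _ e (mem_order σ e)
  have : grF ∅ = ⊥ := by
    rw [show (∅ : Finset (Fin 10)) = ([] : List (Fin 10)).toFinset by simp, grF_toFinset]
    rfl
  rw [this]
  exact isAcyclic_bot

/-- The weight. -/
def wt (σ : Equiv.Perm (Fin 10)) (F : Finset (Fin 10)) : ℕ := ∑ e ∈ F, (σ.symm e).val

theorem improve (σ : Equiv.Perm (Fin 10)) (T : Finset (Fin 10)) (hT : (grF T).IsTree)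
    (hne : kr ∅ (order σ) ≠ T) : ∃ T', (grF T').IsTree ∧ wt σ T' < wt σ T := by
  obtain ⟨e, heK, heT, f, hfT, hfK, t1, t2⟩ := exchange _ T (kr_tree σ) hT hne
  refine ⟨_, t1, ?_⟩
  have hlt : (σ.symm e).val < (σ.symm f).val := by
    by_contra hle
    have hef : e ≠ f := by
      rintro rfl
      exact heT hfT
    have hlt : (σ.symm f).val < (σ.symm e).val := by
      have : (σ.symm f).val ≠ (σ.symm e).val := fun h => hef (σ.symm.injective (Fin.ext h.symm))
      omega
    set i := (σ.symm f).val with hi
    have hil : i < (order σ).length := by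
      rw [order, List.length_ofFn]
      exact (σ.symm f).isLt
    have hget : (order σ)[i] = f := by
      simp only [order, List.getElem_ofFn]
      show σ (σ.symm f) = f
      simp
    have hsplit : order σ = (order σ).take i ++ f :: (order σ).drop (i + 1) := by
      rw [← hget, List.cons_getElem_drop_succ, List.take_append_drop]
    have hn := not_cross_before ((order σ).take i) ((order σ).drop (i + 1)) f (by
      rw [← hsplit]
      exact hfK)
    have hsub : kr ∅ ((order σ).take i) ⊆ (kr ∅ (order σ)).erase e := by
      intro x hx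
      rw [Finset.mem_erase]
      constructor
      · rintro rfl
        rcases mem_kr _ _ _ hx with h | h
        · simp at h
        · rw [List.mem_take_iff_getElem] at h
          obtain ⟨j, hj, h⟩ := h
          have hj' : j < 10 := by
            have := lt_min_iff.1 hj
            rw [order, List.length_ofFn] at this
            exact this.2
          have h5 : σ ⟨j, hj'⟩ = x := by
            rw [← h]
            simp only [order, List.getElem_ofFn]
          have h6 : (σ.symm x).val = j := by
            rw [← h5]
            simp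
          have := (lt_min_iff.1 hj).1
          omega
      · rw [hsplit, kr_append]
        exact subset_kr _ _ hx
    refine hn (crossF_anti hsub f (cross_of_acyclic _ f t2.2 ?_))
    intro h
    exact hfK (Finset.mem_of_mem_erase h)
  unfold wt
  rw [Finset.sum_insert (by simp [heT])]
  have := Finset.sum_erase_add T (fun i => (σ.symm i).val) hfT
  omega

theorem mst_iff (σ : Equiv.Perm (Fin 10)) (T : Finset (Fin 10)) :
    ((grF T).IsTree ∧ ∀ T', (grF T').IsTree → wt σ T ≤ wt σ T') ↔ T = kr ∅ (order σ) := by
  classical
  constructor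
  · rintro ⟨h1, h2⟩
    by_contra hne
    obtain ⟨T', h3, h4⟩ := improve σ T h1 (Ne.symm hne)
    exact absurd (h2 T' h3) (by omega)
  · rintro rfl
    refine ⟨kr_tree σ, fun T' hT' => ?_⟩
    obtain ⟨M, hM1, hM2⟩ := Finset.exists_min_image
      (Finset.univ.filter fun F : Finset (Fin 10) => (grF F).IsTree) (wt σ)
      ⟨T', by simpa using hT'⟩
    have hM1 : (grF M).IsTree := by simpa using hM1
    by_cases hne : kr ∅ (order σ) = M
    · rw [hne]
      exact hM2 T' (by simpa using hT')
    · obtain ⟨T'', h3, h4⟩ := improve σ M hM1 hne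
      exact absurd (hM2 T'' (by simpa using h3)) (by omega)

open scoped Classical in
theorem count_kr : 45360 * (Finset.univ.filter fun σ : Equiv.Perm (Fin 10) =>
    SplitF (kr ∅ (order σ))).card = (Nat.factorial 10) * 35712 := by
  have h := count_orders crossF gF 45360 SplitF (fun F => (grF F).IsAcyclic)
    (fun F e h1 h2 => acyclic_insert F e h1 h2)
    (fun F e f h => crossF_anti (Finset.subset_insert _ _) f h)
    (fun F e => not_crossF_of_mem (Finset.mem_insert_self _ _))
    (fun F hF => (harmonic F hF).1) (fun F hF => (harmonic F hF).2) 10 id ∅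
    Function.injective_id (by
      rw [show (∅ : Finset (Fin 10)) = ([] : List (Fin 10)).toFinset by simp, grF_toFinset]
      exact isAcyclic_bot) (fun e _ => ⟨e, rfl⟩)
  have h0 : gF ∅ = 35712 := by
    have : maskF ∅ = 0 := Finset.sum_empty
    rw [gF, this]
    decide +kernel
  rw [h0] at h
  exact h

/-! ### The grid -/

theorem grid_adj (x y : V) : (grid 2 4).Adj x y ↔ ∃ i, s((ed i).1, (ed i).2) = s(x, y) := by
  have h : (grid 2 4).Adj x y ↔
      ((x.1.val + 1 = y.1.val ∨ y.1.val + 1 = x.1.val) ∧ x.2 = y.2) ∨
      ((x.2.val + 1 = y.2.val ∨ y.2.val + 1 = x.2.val) ∧ x.1 = y.1) := by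
    rw [grid, boxProd_adj, pathGraph_adj, pathGraph_adj]
  rw [h]
  clear h
  revert x y
  decide

/-- The edges of the grid. -/
noncomputable def ix : Fin 10 ≃ (grid 2 4).edgeSet :=
  Equiv.ofBijective (fun i => ⟨s((ed i).1, (ed i).2), by
    rw [mem_edgeSet, grid_adj]
    exact ⟨i, rfl⟩⟩) (by
    constructor
    · intro i j h
      exact ed_inj i j (congrArg Subtype.val h)
    · rintro ⟨e, he⟩
      induction e with
      | _ x y =>
        rw [mem_edgeSet, grid_adj] at he
        obtain ⟨i, hi⟩ := he
        exact ⟨i, Subtype.ext hi⟩)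

theorem ix_val (i : Fin 10) : ((ix i : (grid 2 4).edgeSet) : Sym2 V) = s((ed i).1, (ed i).2) := rfl

theorem card_edges : Nat.card (grid 2 4).edgeSet = 10 := by
  rw [Nat.card_congr ix.symm]
  simp

/-- The set of edges of a finset of indices. -/
def toS (F : Finset (Fin 10)) : Set (grid 2 4).edgeSet := ix '' (F : Set (Fin 10))

theorem toS_inj : Function.Injective toS := by
  intro F F' h
  have := (Set.image_injective.2 ix.injective) h
  exact_mod_cast this

theorem toS_surj (T : Set (grid 2 4).edgeSet) : ∃ F, toS F = T := by
  classical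
  refine ⟨Finset.univ.filter fun i => ix i ∈ T, ?_⟩
  ext e
  constructor
  · rintro ⟨i, hi, rfl⟩
    simpa using hi
  · intro he
    refine ⟨ix.symm e, ?_, by simp⟩
    simpa using he

theorem span_toS (F : Finset (Fin 10)) : span (grid 2 4) (toS F) = grF F := by
  rw [span, grF, toS, ← Set.image_comp]
  rfl

theorem toS_erase (F : Finset (Fin 10)) (e : Fin 10) : toS F \ {ix e} = toS (F.erase e) := by
  rw [toS, toS, Finset.coe_erase, Set.image_sdiff ix.injective, Set.image_singleton]

theorem splittable_toS (F : Finset (Fin 10)) : Splittable (grid 2 4) (toS F) ↔ SplitF F := by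
  constructor
  · rintro ⟨e, ⟨i, hi, rfl⟩, h⟩
    refine ⟨i, by simpa using hi, ?_⟩
    rw [toS_erase, span_toS] at h
    exact h
  · rintro ⟨i, hi, h⟩
    refine ⟨ix i, ⟨i, by simpa using hi, rfl⟩, ?_⟩
    rw [toS_erase, span_toS]
    exact h

theorem mem_trees (F : Finset (Fin 10)) : toS F ∈ trees (grid 2 4) ↔ (grF F).IsTree := by
  show (span (grid 2 4) (toS F)).IsTree ↔ _
  rw [span_toS]

/-- The order of the edges of a ranking. -/
noncomputable def ord : Ranking (grid 2 4) ≃ Equiv.Perm (Fin 10) :=
  (Equiv.equivCongr ix.symm (finCongr card_edges)).trans (Equiv.symmEquiv (Fin 10) (Fin 10))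

theorem ord_symm (w : Ranking (grid 2 4)) (e : Fin 10) : ((ord w).symm e).val = (w (ix e)).val := rfl

theorem weight_toS (w : Ranking (grid 2 4)) (F : Finset (Fin 10)) :
    weight (grid 2 4) w (toS F) = wt (ord w) F := by
  rw [weight, toS, finsum_mem_image (ix.injective.injOn), finsum_mem_coe_finset, wt]
  exact Finset.sum_congr rfl fun e _ => (ord_symm w e).symm

theorem isMST_iff (w : Ranking (grid 2 4)) (F : Finset (Fin 10)) :
    IsMST (grid 2 4) w (toS F) ↔ F = kr ∅ (order (ord w)) := by
  rw [← mst_iff, IsMST, mem_trees]
  refine and_congr_right fun _ => ?_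
  constructor
  · intro h T' hT'
    have := h (toS T') ((mem_trees T').2 hT')
    rwa [weight_toS, weight_toS] at this
  · intro h T' hT'
    obtain ⟨F', rfl⟩ := toS_surj T'
    rw [weight_toS, weight_toS]
    exact h F' ((mem_trees F').1 hT')

theorem good_iff (w : Ranking (grid 2 4)) :
    (∃ T, IsMST (grid 2 4) w T ∧ Splittable (grid 2 4) T) ↔ SplitF (kr ∅ (order (ord w))) := by
  constructor
  · rintro ⟨T, h1, h2⟩
    obtain ⟨F, rfl⟩ := toS_surj T
    rw [isMST_iff] at h1
    rw [splittable_toS, h1] at h2
    exact h2
  · intro h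
    refine ⟨toS (kr ∅ (order (ord w))), (isMST_iff w _).2 rfl, (splittable_toS _).2 h⟩

theorem card_ranking : ((Set.univ : Set (Ranking (grid 2 4))).ncard : ℚ) = Nat.factorial 10 := by
  rw [Set.ncard_univ, Nat.card_congr ord, Nat.card_eq_fintype_card, Fintype.card_perm, Fintype.card_fin]

theorem pMST_grid : pMST (grid 2 4) = 248 / 315 := by
  classical
  have h1 : {w : Ranking (grid 2 4) | ∃ T, IsMST (grid 2 4) w T ∧ Splittable (grid 2 4) T}.ncard =
      (Finset.univ.filter fun σ : Equiv.Perm (Fin 10) => SplitF (kr ∅ (order σ))).card := by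
    rw [← Set.ncard_image_of_injective _ ord.injective, ← Set.ncard_coe_finset]
    congr 1
    ext σ
    simp only [Set.mem_image, Set.mem_ofPred_eq, Finset.coe_filter, Finset.mem_univ, true_and]
    constructor
    · rintro ⟨w, hw, rfl⟩
      exact (good_iff w).1 hw
    · intro h
      refine ⟨ord.symm σ, ?_, by simp⟩
      rw [good_iff]
      simpa using h
  have h2 := count_kr
  rw [pMST, card_ranking, h1]
  have h4 : 0 < Nat.factorial 10 := Nat.factorial_pos 10
  generalize Nat.factorial 10 = N at *
  generalize (Finset.univ.filter fun σ : Equiv.Perm (Fin 10) => SplitF (kr ∅ (order σ))).card = X at *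
  have h3 : (45360 * (X : ℚ)) = N * 35712 := by exact_mod_cast h2
  have h5 : (N : ℚ) ≠ 0 := by exact_mod_cast h4.ne'
  rw [div_eq_div_iff h5 (by norm_num)]
  linarith

theorem count (A : Set (Set (grid 2 4).edgeSet)) (check : List (Fin 10) → Bool)
    (h : ∀ l, l ∈ (List.finRange 10).sublists → (check l = true ↔ toS l.toFinset ∈ A)) :
    A.ncard = (((List.finRange 10).sublists).filter check).length := by
  classical
  have inj : Set.InjOn (fun l : List (Fin 10) => toS l.toFinset)
      {l | l ∈ (List.finRange 10).sublists} := by
    intro l hl l' hl' hll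
    have h1 := toS_inj hll
    have e : ∀ l : List (Fin 10), l ∈ (List.finRange 10).sublists →
        l = (List.finRange 10).filter (· ∈ l.toFinset) := by
      intro l hl
      have hs := List.mem_sublists.1 hl
      have h3 : l.Sublist ((List.finRange 10).filter (· ∈ l.toFinset)) := by
        have := hs.filter (· ∈ l.toFinset)
        rwa [List.filter_eq_self.2 (by simp)] at this
      refine h3.eq_of_length_le ?_
      have hsub : ((List.finRange 10).filter (· ∈ l.toFinset)) ⊆ l := by
        intro a ha
        simpa using (List.mem_filter.1 ha).2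
      exact (List.subperm_of_subset ((List.nodup_finRange 10).filter _) hsub).length_le
    rw [e l hl, e l' hl', h1]
  have e : A = (fun l : List (Fin 10) => toS l.toFinset) ''
      ((((List.finRange 10).sublists).filter check).toFinset : Set (List (Fin 10))) := by
    ext T
    constructor
    · intro hT
      obtain ⟨F, rfl⟩ := toS_surj T
      revert hT
      refine finset_ind (fun F => toS F ∈ A → toS F ∈ _) (fun l hl hT => ?_) F
      refine ⟨l, ?_, rfl⟩
      simp only [List.coe_toFinset, Set.mem_ofPred_eq, List.mem_filter]
      exact ⟨hl, (h l hl).2 hT⟩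
    · rintro ⟨l, hl, rfl⟩
      simp only [List.coe_toFinset, Set.mem_ofPred_eq, List.mem_filter] at hl
      exact (h l hl.1).1 hl.2
  rw [e, Set.InjOn.ncard_image (inj.mono fun l hl => by
    simp only [List.coe_toFinset, Set.mem_ofPred_eq, List.mem_filter] at hl
    exact hl.1), Set.ncard_coe_finset, List.toFinset_card_of_nodup]
  exact (List.nodup_sublists.2 (List.nodup_finRange 10)).filter _

theorem pUST_grid : pUST (grid 2 4) = 11 / 14 := by
  have h1 : (trees (grid 2 4)).ncard = 56 := by
    refine (count _ (fun l => treeTable.testBit (mask l)) fun l hl => ?_).trans ?_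
    · rw [mem_trees, ← (facts _).1, maskF_toFinset l (nodup_of l hl)]
    · decide +kernel
  have h2 : (trees (grid 2 4) ∩ {T | Splittable (grid 2 4) T}).ncard = 44 := by
    refine (count _ (fun l => treeTable.testBit (mask l) && split l) fun l hl => ?_).trans ?_
    · rw [Bool.and_eq_true, Set.mem_inter_iff, mem_trees, ← (facts _).1,
        maskF_toFinset l (nodup_of l hl), Set.mem_ofPred_eq, splittable_toS]
      refine and_congr_right fun h3 => ?_
      rw [← maskF_toFinset l (nodup_of l hl), (facts _).1, grF_toFinset] at h3
      exact split_iff l (nodup_of l hl) h3.2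
    · decide +kernel
  rw [pUST, h1, h2]
  norm_num

/-- **Disproof of Q2.** For the grid `P₂ □ P₄` the probability `248/315` that the random minimum spanning tree
is splittable into two equal halves is larger than the probability `11/14` for the uniform spanning tree. -/
theorem result :
    (pMST (grid 2 4) = 248 / 315 ∧ pUST (grid 2 4) = 11 / 14 ∧ pUST (grid 2 4) < pMST (grid 2 4)) ∧
    ¬ ∀ a b : ℕ, 1 ≤ a → 1 ≤ b → Even (a * b) → pMST (grid a b) ≤ pUST (grid a b) := by
  have h : pUST (grid 2 4) < pMST (grid 2 4) := by
    rw [pMST_grid, pUST_grid]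
    norm_num
  refine ⟨⟨pMST_grid, pUST_grid, h⟩, fun hall => ?_⟩
  exact absurd (hall 2 4 (by norm_num) (by norm_num) (by decide)) (not_le.2 h)

end Pool.Agent.Results.MP_ddaf7c_pr.GridTwoFour
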